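import Pool.Agent.W890.SF.Stm

/-!
# Project SAM, SAM-BL1: balancing, first case (helper85)
-/

set_option autoImplicit false
set_option maxHeartbeats 4000000

namespace Pool.Agent.W85.SAM.BL1

open Finset Pool.Agent.W890.SF

theorem cnt {V : Type} [Fintype V] [DecidableEq V] (k : ℕ) (H : Finset (Finset V))
    (hH : Unif k H) (A1 : Finset V) (v : V) (hv : v ∉ A1) :
    (H.filter (fun e => v ∈ e ∧ ¬ Disjoint e A1)).card +
      (Fintype.card V - 1 - A1.card).choose (k - 1) ≤ (Fintype.card V - 1).choose (k - 1) := by
  have hc : ((univ : Finset V).erase v).card = Fintype.card V - 1 := by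
    rw [card_erase_of_mem (mem_univ v), card_univ]
  have h1 : (H.filter (fun e => v ∈ e ∧ ¬ Disjoint e A1)).card ≤
      ((((univ : Finset V).erase v).powersetCard (k - 1)).filter (fun S => ¬ Disjoint S A1)).card := by
    apply card_le_card_of_injOn (fun e => e.erase v)
    · intro e he
      obtain ⟨he1, he2, he3⟩ := mem_filter.1 (mem_coe.1 he)
      rw [mem_coe, mem_filter, mem_powersetCard]
      refine ⟨⟨erase_subset_erase v (subset_univ e), ?_⟩, ?_⟩
      · rw [card_erase_of_mem he2, hH e he1]
      · intro hd
        apply he3
        rw [Finset.disjoint_left] at hd ⊢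
        intro x hx hxA
        exact hd (mem_erase.2 ⟨fun h => hv (h ▸ hxA), hx⟩) hxA
    · intro e he e' he' hee
      have h2 := (mem_filter.1 (mem_coe.1 he)).2.1
      have h3 := (mem_filter.1 (mem_coe.1 he')).2.1
      rw [← insert_erase h2, ← insert_erase h3]
      simp only at hee
      rw [hee]
  have h2 : (Fintype.card V - 1 - A1.card).choose (k - 1) ≤
      ((((univ : Finset V).erase v).powersetCard (k - 1)).filter (fun S => Disjoint S A1)).card := by
    have h3 : (((univ : Finset V).erase v) \ A1).card = Fintype.card V - 1 - A1.card := by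
      rw [card_sdiff_of_subset, hc]
      intro x hx
      exact mem_erase.2 ⟨fun h => hv (h ▸ hx), mem_univ x⟩
    rw [← h3, ← card_powersetCard]
    apply card_le_card
    intro S hS
    rw [mem_powersetCard] at hS
    rw [mem_filter, mem_powersetCard]
    refine ⟨⟨hS.1.trans sdiff_subset, hS.2⟩, ?_⟩
    rw [Finset.disjoint_left]
    intro x hx hxA
    exact (mem_sdiff.1 (hS.1 hx)).2 hxA
  have h4 := card_filter_add_card_filter_not (s := ((univ : Finset V).erase v).powersetCard (k - 1))
    (fun S => Disjoint S A1)
  rw [card_powersetCard, hc] at h4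
  omega

theorem bl1 (h : S_BDD) : S_BL1 := by
  intro k hk V _ _ hkn H hH hdeg A1 hA hsmall
  obtain ⟨n, hn⟩ : ∃ n, n = Fintype.card V := ⟨_, rfl⟩
  obtain ⟨t, ht⟩ : ∃ t, t = n / k - A1.card := ⟨_, rfl⟩
  rw [← hn] at hkn hdeg hA hsmall ⊢
  rw [← ht] at hsmall ⊢
  by_cases ht0 : t = 0
  · refine ⟨∅, empty_subset _, fun e he => absurd he (notMem_empty e), ?_,
      fun e he => absurd he (notMem_empty e)⟩
    rw [ht0, card_empty]
  · have hUc : (univ \ A1 : Finset V).card = n - A1.card := by
      rw [card_sdiff_of_subset (subset_univ A1), card_univ, hn]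
    have hAn : A1.card ≤ n := le_trans hA (Nat.div_le_self n k)
    have hnk : n / k * 2 ≤ n := by
      have h1 : n / k * k ≤ n := Nat.div_mul_le_self n k
      nlinarith
    have hM : HasM (H.filter (fun e => Disjoint e A1)) t := by
      apply h k (by omega) V (univ \ A1) (H.filter (fun e => Disjoint e A1)) t
      · intro e he
        rw [mem_filter] at he
        refine ⟨fun x hx => mem_sdiff.2 ⟨mem_univ x, fun hxA => ?_⟩, hH e he.1⟩
        exact (Finset.disjoint_left.1 he.2) hx hxA
      · omega
      · rw [hUc]
        have h1 : 8 * k ^ 3 * t = 2 * (4 * k ^ 3 * t) := by ring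
        omega
      · intro v hv
        have hvA : v ∉ A1 := (mem_sdiff.1 hv).2
        rw [hUc]
        have h1 := cnt k H hH A1 v hvA
        rw [← hn] at h1
        have h2 := hdeg v
        have h3 : dg H v = dg (H.filter (fun e => Disjoint e A1)) v +
            (H.filter (fun e => v ∈ e ∧ ¬ Disjoint e A1)).card := by
          unfold dg
          rw [filter_filter]
          have h4 := card_filter_add_card_filter_not (s := H.filter (fun e => v ∈ e))
            (fun e => Disjoint e A1)
          rw [filter_filter, filter_filter] at h4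
          rw [← h4]
          congr 2
          apply filter_congr
          intro e _
          exact and_comm
        have h5 : n - A1.card - t = n - n / k := by omega
        have h6 : n - 1 - A1.card = n - A1.card - 1 := by omega
        rw [h5]
        rw [h6] at h1
        have h7 : (n - n / k).choose (k - 1) ≤ (n - A1.card - 1).choose (k - 1) :=
          Nat.choose_le_choose _ (by omega)
        omega
    obtain ⟨M, hMF, hMm, hMc⟩ := hM
    exact ⟨M, fun e he => (mem_filter.1 (hMF he)).1, hMm, hMc,
      fun e he => (mem_filter.1 (hMF he)).2⟩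

end Pool.Agent.W85.SAM.BL1
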